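import Mathlib

set_option autoImplicit false

namespace Pool.Agent.Results.MP_811a2c_al.Embed

open Relation Set

def Step {S : Type} [Monoid S] {n : ℕ} (H : Set ((Fin n × S) × (Fin n × S)))
    (p q : Fin n × S) : Prop :=
  ∃ s : S, ∃ h ∈ H, p = (h.1.1, s * h.1.2) ∧ q = (h.2.1, s * h.2.2)

def FinPres (S A : Type) [Monoid S] [MulAction S A] : Prop :=
  ∃ (n : ℕ) (θ : Fin n × S → A) (H : Set ((Fin n × S) × (Fin n × S))), H.Finite ∧
    Function.Surjective θ ∧ (∀ i s t, θ (i, s * t) = s • θ (i, t)) ∧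
    ∀ p q, θ p = θ q ↔ EqvGen (Step H) p q

def LeftCoherent (S : Type) [Monoid S] : Prop :=
  ∀ (A : Type) [MulAction S A], FinPres S A → ∀ B : SubMulAction S A,
    (∃ G : Set A, G.Finite ∧ ∀ x, x ∈ B ↔ ∃ g ∈ G, ∃ s : S, x = s • g) → FinPres S B

def RightCoherent (S : Type) [Monoid S] : Prop := LeftCoherent Sᵐᵒᵖ

@[ext] structure SP (M : Type) where
  set : Set M
  el : M

instance (M : Type) [Monoid M] : Monoid (SP M) where
  mul a b := ⟨a.set ∪ (fun y => a.el * y) '' b.set, a.el * b.el⟩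
  one := ⟨∅, 1⟩
  mul_assoc a b c := by
    refine SP.ext ?_ (mul_assoc a.el b.el c.el)
    show (a.set ∪ (fun y => a.el * y) '' b.set) ∪ (fun y => (a.el * b.el) * y) '' c.set =
      a.set ∪ (fun y => a.el * y) '' (b.set ∪ (fun y => b.el * y) '' c.set)
    simp only [image_union, image_image, union_assoc, mul_assoc]
  one_mul a := by
    refine SP.ext ?_ (one_mul a.el)
    show ∅ ∪ (fun y => 1 * y) '' a.set = a.set
    simp
  mul_one a := by
    refine SP.ext ?_ (mul_one a.el)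
    show a.set ∪ (fun y => a.el * y) '' ∅ = a.set
    simp

def act (m : Fin 3) (Y : Set (ℕ × ℕ)) : Set (ℕ × ℕ) :=
  if m = 0 then Y else {p | ((0, 0) ∈ Y ∧ m = 1 ∧ (p = (1, 0) ∨ (p.1 = 2 ∧ p.2 ≠ 0))) ∨
    (((1, 0) ∈ Y ∨ ((0, 0) ∈ Y ∧ m = 2)) ∧ (p = (1, 0) ∨ (p.1 = p.2 + 1 ∧ p.2 ≠ 0)))}

def mf (m k : Fin 3) : Fin 3 := if m = 0 then k else if k = 0 then m else 2

@[ext] structure T where
  set : Set (ℕ × ℕ)
  idx : Fin 3

lemma act_union (m : Fin 3) (Y Z : Set (ℕ × ℕ)) : act m (Y ∪ Z) = act m Y ∪ act m Z := by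
  ext p; unfold act; split_ifs <;> simp; tauto

lemma act_act (m k : Fin 3) (Y : Set (ℕ × ℕ)) : act m (act k Y) = act (mf m k) Y := by
  ext p; fin_cases m <;> fin_cases k <;> simp [act, mf] <;> tauto

instance : Monoid T where
  mul a b := ⟨a.set ∪ act a.idx b.set, mf a.idx b.idx⟩
  one := ⟨∅, 0⟩
  mul_assoc a b c := by
    refine T.ext ?_ ?_
    · show (a.set ∪ act a.idx b.set) ∪ act (mf a.idx b.idx) c.set =
        a.set ∪ act a.idx (b.set ∪ act b.idx c.set)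
      rw [act_union, act_act, union_assoc]
    · show mf (mf a.idx b.idx) c.idx = mf a.idx (mf b.idx c.idx)
      generalize a.idx = x; generalize b.idx = y; generalize c.idx = z
      revert x y z; decide
  one_mul a := by
    refine T.ext ?_ ?_
    · show ∅ ∪ act 0 a.set = a.set
      simp [act]
    · show mf 0 a.idx = a.idx
      simp [mf]
  mul_one a := by
    refine T.ext ?_ ?_
    · show a.set ∪ act a.idx ∅ = a.set
      unfold act; split_ifs <;> simp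
    · show mf a.idx 0 = a.idx
      generalize a.idx = x; revert x; decide

lemma T_mul (a b : T) : a * b = ⟨a.set ∪ act a.idx b.set, mf a.idx b.idx⟩ := rfl

lemma e_mul (Z Y : Set (ℕ × ℕ)) (m : Fin 3) : (⟨Z, 0⟩ : T) * ⟨Y, m⟩ = ⟨Z ∪ Y, m⟩ := by
  simp [T_mul, act, mf]

lemma coh : LeftCoherent T := by
  rintro A _ ⟨n, θ, H, hH, hs, he, hk⟩ B ⟨G, hG, hB⟩
  obtain ⟨k, g, hg⟩ : ∃ (k : ℕ) (g : Fin k → A), range g = G := by
    obtain ⟨k, g, _, h⟩ := hG.fin_param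
    exact ⟨k, g, h⟩
  choose r hr using fun i => hs (g i)
  let C : Set (Set (ℕ × ℕ)) := (fun x : Fin 3 × ((Fin n × T) × (Fin n × T)) =>
      act x.1 x.2.1.2.set) '' (univ ×ˢ H) ∪ (fun x : Fin 3 × ((Fin n × T) × (Fin n × T)) =>
      act x.1 x.2.2.2.set) '' (univ ×ˢ H) ∪ range fun x : Fin 3 × Fin k => act x.1 (r x.2).2.set
  have hC : C.Finite :=
    (((finite_univ.prod hH).image _).union ((finite_univ.prod hH).image _)).union (finite_range _)
  let sg : ℕ × ℕ → Set (Set (ℕ × ℕ)) := fun w => {c ∈ C | w ∈ c}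
  let Sat : Set (Set (ℕ × ℕ)) := {Z | ∀ w w', sg w = sg w' → w ∈ Z → w' ∈ Z}
  have hSat : Sat.Finite := by
    refine (hC.finite_subsets.finite_subsets.image fun U => sg ⁻¹' U).subset fun Z hZ => ?_
    refine ⟨sg '' Z, ?_, ?_⟩
    · rintro _ ⟨w, -, rfl⟩ c hc
      exact hc.1
    · ext w
      exact ⟨fun ⟨w', h1, h2⟩ => hZ _ _ h2 h1, fun h => ⟨w, h, rfl⟩⟩
  have hCS : ∀ c ∈ C, c ∈ Sat := fun c hc w w' h hw =>
    (show c ∈ sg w' from h ▸ ⟨hc, hw⟩).2
  have hU : ∀ Y ∈ Sat, ∀ Z ∈ Sat, Y ∪ Z ∈ Sat := fun Y hY Z hZ w w' h hw =>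
    hw.imp (hY _ _ h) (hZ _ _ h)
  let π : Set (ℕ × ℕ) → Set (ℕ × ℕ) := fun Z => {w | ∀ w', sg w = sg w' → w' ∈ Z}
  have p1 : ∀ Z, π Z ⊆ Z := fun Z w hw => hw w rfl
  have p2 : ∀ Z, π Z ∈ Sat := fun Z w w' h hw w'' h' => hw _ (h.trans h')
  have p3 : ∀ Z, ∀ c ∈ Sat, π (Z ∪ c) = π Z ∪ c := by
    intro Z c hc
    ext w
    refine ⟨fun hw => ?_, fun hw w' h => hw.imp (fun x => x w' h) (hc _ _ h)⟩
    by_cases h : w ∈ c
    · exact Or.inr h
    · exact Or.inl fun w' h' => (hw w' h').resolve_right fun x => h (hc _ _ h'.symm x)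
  have P1 : ∀ Z x Y m, θ (x, ⟨Z ∪ Y, m⟩) = (⟨Z, 0⟩ : T) • θ (x, ⟨Y, m⟩) := by
    intro Z x Y m
    rw [← he, e_mul]
  have P2 : ∀ p q, θ p = θ q →
      θ (p.1, ⟨π p.2.set, p.2.idx⟩) = θ (q.1, ⟨π q.2.set, q.2.idx⟩) := by
    intro p q h
    induction (hk p q).mp h with
    | rel p q h1 =>
      obtain ⟨s, c, hc, rfl, rfl⟩ := h1
      simp only [T_mul]
      rw [p3 _ _ (hCS _ (Or.inl (Or.inl ⟨(s.idx, c), ⟨trivial, hc⟩, rfl⟩))),
        p3 _ _ (hCS _ (Or.inl (Or.inr ⟨(s.idx, c), ⟨trivial, hc⟩, rfl⟩)))]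
      exact (hk _ _).mpr (EqvGen.rel _ _ ⟨⟨π s.set, s.idx⟩, c, hc, rfl, rfl⟩)
    | refl p => rfl
    | symm p q h1 ih => exact (ih h.symm).symm
    | trans p q u h1 h2 i1 i2 => exact (i1 ((hk _ _).mpr h1)).trans (i2 ((hk _ _).mpr h2))
  have P0 : ∀ Z p q, θ p = θ q →
      θ (p.1, ⟨Z ∪ p.2.set, p.2.idx⟩) = θ (q.1, ⟨Z ∪ q.2.set, q.2.idx⟩) := by
    intro Z p q h
    rw [P1, P1]
    exact congrArg _ h
  have P3 : ∀ p q, θ p = θ q → ∃ b ∈ Sat, θ p = θ (p.1, ⟨b ∪ p.2.set, p.2.idx⟩) ∧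
      b ∪ p.2.set = b ∪ q.2.set := by
    intro p q h
    induction (hk p q).mp h with
    | rel p q h1 =>
      obtain ⟨s, c, hc, rfl, rfl⟩ := h1
      refine ⟨act s.idx c.1.2.set ∪ act s.idx c.2.2.set, hU _
        (hCS _ (Or.inl (Or.inl ⟨(s.idx, c), ⟨trivial, hc⟩, rfl⟩))) _
        (hCS _ (Or.inl (Or.inr ⟨(s.idx, c), ⟨trivial, hc⟩, rfl⟩))), ?_, ?_⟩
      · have h2 := P0 (act s.idx c.2.2.set) _ _ h
        simp only [T_mul] at h h2 ⊢
        rw [h]
        convert h2.symm using 3 <;> ext w <;> simp only [mem_union] <;> tauto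
      · simp only [T_mul]
        ext w; simp only [mem_union]; tauto
    | refl p => exact ⟨∅, fun _ _ _ h => h, by simp, rfl⟩
    | symm p q h1 ih =>
      obtain ⟨b, hb, h2, h3⟩ := ih h.symm
      exact ⟨b, hb, h.trans (h2.trans (P0 b _ _ h.symm)), h3.symm⟩
    | trans p q u h1 h2 i1 i2 =>
      have e1 := (hk _ _).mpr h1
      obtain ⟨b, hb, h3, h4⟩ := i1 e1
      obtain ⟨c, hc, h5, h6⟩ := i2 ((hk _ _).mpr h2)
      refine ⟨c ∪ b, hU _ hc _ hb, ?_, ?_⟩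
      · rw [union_assoc]
        exact e1.trans (h5.trans ((P0 c _ _ e1).symm.trans (P0 c _ _ h3)))
      · rw [union_assoc, h4, union_left_comm, h6, union_left_comm, union_assoc]
  have hm : ∀ (i : Fin k) (t : T), t • g i ∈ B := fun i t =>
    (hB _).mpr ⟨g i, hg ▸ mem_range_self i, t, rfl⟩
  have hv : ∀ (i : Fin k) (Z : Set (ℕ × ℕ)) (m : Fin 3), (⟨Z, m⟩ : T) • g i =
      θ ((r i).1, ⟨Z ∪ act m (r i).2.set, mf m (r i).2.idx⟩) := by
    intro i Z m
    rw [← hr, ← he]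
    rfl
  let K : Set ((Fin k × T) × (Fin k × T)) :=
    {h | h.1.2.set ∈ Sat ∧ h.2.2.set ∈ Sat ∧ h.1.2 • g h.1.1 = h.2.2 • g h.2.1}
  have hF : {p : Fin k × T | p.2.set ∈ Sat}.Finite := by
    refine ((finite_univ.prod (hSat.prod finite_univ)).image
      fun x : Fin k × Set (ℕ × ℕ) × Fin 3 => (x.1, (⟨x.2.1, x.2.2⟩ : T))).subset fun p hp => ?_
    exact ⟨(p.1, p.2.set, p.2.idx), ⟨trivial, hp, trivial⟩, rfl⟩
  refine ⟨k, fun p => ⟨p.2 • g p.1, hm _ _⟩, K, (hF.prod hF).subset fun h hh => ⟨hh.1, hh.2.1⟩,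
    ?_, fun i s t => Subtype.ext (mul_smul s t (g i)), fun p q => ⟨fun h => ?_, fun h => ?_⟩⟩
  · rintro ⟨x, hx⟩
    obtain ⟨_, h1, s, rfl⟩ := (hB x).mp hx
    obtain ⟨i, rfl⟩ := hg.symm ▸ h1
    exact ⟨(i, s), rfl⟩
  · obtain ⟨i, u, m⟩ := p
    obtain ⟨j, v, l⟩ := q
    have h1 : (⟨u, m⟩ : T) • g i = (⟨v, l⟩ : T) • g j := congrArg Subtype.val h
    have ai := hCS (act m (r i).2.set) (Or.inr ⟨(m, i), rfl⟩)
    have aj := hCS (act l (r j).2.set) (Or.inr ⟨(l, j), rfl⟩)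
    rw [hv, hv] at h1
    obtain ⟨b, hb, h2, h3⟩ := P3 _ _ h1
    have h4 := h2.trans (P0 b _ _ h1)
    simp only at h3 h4
    have key : ∀ (i : Fin k) (u : Set (ℕ × ℕ)) (m : Fin 3), act m (r i).2.set ∈ Sat →
        b ∪ (u ∪ act m (r i).2.set) = b ∪ (v ∪ act l (r j).2.set) →
        θ ((r i).1, ⟨u ∪ act m (r i).2.set, mf m (r i).2.idx⟩) =
          θ ((r j).1, ⟨b ∪ (v ∪ act l (r j).2.set), mf l (r j).2.idx⟩) →
        Step K (i, ⟨u, m⟩) (j, ⟨b ∪ (v ∪ act l (r j).2.set), l⟩) := by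
      intro i u m ai h3 h4
      have h5 := P2 _ _ h4
      simp only at h5
      refine ⟨⟨u, 0⟩, ((i, ⟨π u, m⟩), (j, ⟨π (b ∪ (v ∪ act l (r j).2.set)), l⟩)),
        ⟨p2 _, p2 _, ?_⟩, ?_, ?_⟩
      · simp only
        rw [hv, hv, ← p3 _ _ ai, ← p3 _ _ aj, h5, union_assoc, union_assoc, union_self]
      · simp only [e_mul, union_eq_left.mpr (p1 u)]
      · simp only [e_mul]
        rw [← h3, union_comm b, union_assoc, p3 _ _ (hU _ ai _ hb), ← union_assoc u (π u),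
          union_eq_left.mpr (p1 u)]
    exact EqvGen.trans _ _ _ (EqvGen.rel _ _ (key i u m ai h3 h4))
      (EqvGen.symm _ _ (EqvGen.rel _ _ (key j v l aj rfl (h1.symm.trans h4))))
  · induction h with
    | rel p q h1 =>
      obtain ⟨s, c, hc, rfl, rfl⟩ := h1
      refine Subtype.ext ?_
      simp only [mul_smul, hc.2.2]
    | refl p => rfl
    | symm p q h1 ih => exact ih.symm
    | trans p q u h1 h2 i1 i2 => exact i1.trans i2

@[ext] structure MM where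
  v : ℕ

def mm (x y : ℕ) : ℕ := if x = 0 then y else if y = 0 then x else max x 2

instance : Monoid MM where
  mul a b := ⟨mm a.v b.v⟩
  one := ⟨0⟩
  mul_assoc a b c := by
    refine MM.ext ?_
    show mm (mm a.v b.v) c.v = mm a.v (mm b.v c.v)
    unfold mm; split_ifs <;> omega
  one_mul a := MM.ext (by show mm 0 a.v = a.v; simp [mm])
  mul_one a := MM.ext (by show mm a.v 0 = a.v; unfold mm; split_ifs <;> omega)

lemma M_mul (a b : MM) : (a * b).v = mm a.v b.v := rfl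

lemma S_set (a b : SP MM) : (a * b).set = a.set ∪ (fun y => a.el * y) '' b.set := rfl

lemma S_el (a b : SP MM) : (a * b).el = a.el * b.el := rfl

lemma S_one (a : SP MM) (h1 : a.set = ∅) (h2 : a.el.v = 0) : a = 1 := SP.ext h1 (MM.ext h2)

lemma fix (w u : SP MM) (h : (⟨∅, ⟨1⟩⟩ : SP MM) * w * u = ⟨∅, ⟨1⟩⟩) : w = 1 ∧ u = 1 := by
  have h1 := congrArg SP.set h
  have h2 := congrArg (fun x => x.el.v) h
  simp only [S_set, S_el, M_mul, empty_union, union_empty_iff, image_eq_empty] at h1 h2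
  unfold mm at h2
  exact ⟨S_one _ h1.1 (by split_ifs at h2 <;> first | omega | contradiction),
    S_one _ h1.2 (by split_ifs at h2 <;> first | omega | contradiction)⟩

open MulOpposite in
lemma ncoh : ¬ RightCoherent (SP MM) := by
  intro h
  let s : SP MM := ⟨∅, ⟨1⟩⟩
  obtain ⟨n, θ, H, hH, hs, he, hk⟩ := h (SP MM)ᵐᵒᵖ ⟨1, fun p => p.2, ∅, finite_empty,
      fun x => ⟨(0, x), rfl⟩, fun _ _ _ => rfl, fun p q => ⟨fun h => by
        rw [Prod.ext (Subsingleton.elim p.1 q.1) h]; exact EqvGen.refl _, fun h => by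
        induction h with
        | rel p q h1 => obtain ⟨_, _, h, _⟩ := h1; exact h.elim
        | refl p => rfl
        | symm p q h1 ih => exact ih.symm
        | trans p q u h1 h2 i1 i2 => exact i1.trans i2⟩⟩
    ⟨{x | ∃ t, x = t * op s}, by rintro c _ ⟨t, rfl⟩; exact ⟨c * t, (mul_assoc _ _ _).symm⟩⟩
    ⟨{op s}, finite_singleton _, fun x => ⟨fun ⟨t, h⟩ => ⟨_, rfl, t, h⟩,
      fun ⟨_, h1, t, h⟩ => ⟨t, h1 ▸ h⟩⟩⟩
  have hv : ∀ i t, (θ (i, t)).1 = t * (θ (i, 1)).1 := by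
    intro i t
    have := congrArg Subtype.val (he i t 1)
    rwa [mul_one] at this
  have hf : ∀ p, (θ p).1 = op s → (θ (p.1, 1)).1 = op s ∧ p.2 = 1 := by
    intro p hp
    obtain ⟨w, hw⟩ := (θ (p.1, 1)).2
    rw [show p = (p.1, p.2) from rfl, hv, hw] at hp
    obtain ⟨h1, h2⟩ := fix (unop w) (unop p.2) (congrArg unop hp)
    rw [hw, unop_eq_one_iff] at *
    exact ⟨by rw [h1, one_mul], h2⟩
  obtain ⟨l, hl⟩ := (((hH.image fun c => (unop c.1.2).el.v).union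
    (hH.image fun c => (unop c.2.2).el.v)).union (finite_le_nat 2)).exists_notMem
  simp only [mem_union, mem_image, not_or, not_exists, not_and, mem_ofPred_eq, not_le] at hl
  let P : Fin n × (SP MM)ᵐᵒᵖ → Prop := fun p => unop p.2 = ⟨∅, ⟨l⟩⟩ ∧ (θ (p.1, 1)).1 = op s
  have aux : ∀ c d t, θ c = θ d → (unop c.2).el.v ≠ l → P (c.1, t * c.2) → P (d.1, t * d.2) := by
    rintro c d t h1 h2 ⟨h3, h4⟩
    have h5 := congrArg SP.set h3
    have h6 := congrArg (fun x => x.el.v) h3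
    simp only [unop_mul, S_set, S_el, M_mul, union_empty_iff] at h5 h6
    have h7 : c.2 = 1 := by
      rw [← unop_eq_one_iff]
      unfold mm at h6
      exact S_one _ h5.1 (by split_ifs at h6 <;> omega)
    have h8 := hf d (by rw [← h1, show c = (c.1, 1) from Prod.ext rfl h7]; exact h4)
    exact ⟨by rw [h8.2, ← h7]; exact h3, h8.1⟩
  have inv : ∀ p q, EqvGen (Step H) p q → (P p ↔ P q) := by
    intro p q h
    induction h with
    | rel p q h1 =>
      obtain ⟨t, c, hc, rfl, rfl⟩ := h1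
      have e : θ c.1 = θ c.2 := (hk _ _).mpr (EqvGen.rel _ _ ⟨1, c, hc, by simp, by simp⟩)
      exact ⟨aux _ _ t e (hl.1.1 c hc), aux _ _ t e.symm (hl.1.2 c hc)⟩
    | refl p => rfl
    | symm p q h1 ih => exact ih.symm
    | trans p q u h1 h2 i1 i2 => exact i1.trans i2
  obtain ⟨p, hp⟩ := hs ⟨op s, 1, (one_mul _).symm⟩
  have h1 := (hf p (congrArg Subtype.val hp)).1
  have h2 : θ (p.1, op ⟨∅, ⟨l⟩⟩) = θ (p.1, op ⟨∅, ⟨2⟩⟩) := by
    refine Subtype.ext ?_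
    rw [hv, hv p.1 (op ⟨∅, ⟨2⟩⟩), h1, ← op_mul, ← op_mul]
    refine congrArg op (SP.ext (by simp [S_set]) (MM.ext ?_))
    simp only [S_el, M_mul, mm, s]
    split_ifs <;> first | omega | contradiction
  have h3 := congrArg (fun x => x.el.v) ((inv _ _ ((hk _ _).mp h2)).mp ⟨rfl, h1⟩).1
  simp only [MulOpposite.unop_op] at h3
  omega

def io (a : SP MM) : T :=
  ⟨{p | (∃ m ∈ a.set, p.1 = if p.2 = 0 then min m.v 1 else m.v + 1) ∨
    (a.el.v ≠ 0 ∧ p.2 ≠ 0 ∧ p.2 ≠ max a.el.v 2)},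
    if a.el.v = 0 then 0 else if a.el.v = 1 then 1 else 2⟩

lemma io_inj : Function.Injective io := by
  rintro ⟨X, ⟨x⟩⟩ ⟨Y, ⟨y⟩⟩ h
  have h1 := fun p => Set.ext_iff.mp (congrArg T.set h) p
  have h2 := congrArg (fun t => (T.idx t).val) h
  simp only [io, mem_ofPred_eq] at h1 h2
  have h3 := h1 (0, max x 2)
  have h4 := h1 (0, max y 2)
  simp at h3 h4
  have e : x = y := by split_ifs at h2 <;> simp at h2 <;> omega
  subst e
  refine SP.ext ?_ rfl
  ext m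
  have h5 := h1 (m.v + 1, max x 2)
  simpa [← MM.ext_iff] using h5

lemma io_mul (a b : SP MM) : io (a * b) = io a * io b := by
  obtain ⟨X, ⟨x⟩⟩ := a
  obtain ⟨Y, ⟨y⟩⟩ := b
  rw [T_mul]
  refine T.ext ?_ ?_
  · ext ⟨p, q⟩
    by_cases hx : x = 0
    · subst hx
      simp [io, S_set, S_el, M_mul, mm, act, or_and_right, exists_or, or_assoc]
    · have E : mm x y ≠ 0 ∧ max (mm x y) 2 = max x 2 := by unfold mm; split_ifs <;> omega
      have A : (∃ m ∈ Y, p = if q = 0 then min (mm x m.v) 1 else mm x m.v + 1) ↔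
          ((∃ m ∈ Y, m.v = 0) ∧ p = if q = 0 then 1 else x + 1) ∨
          ((∃ m ∈ Y, m.v ≠ 0) ∧ p = if q = 0 then 1 else max x 2 + 1) := by
        unfold mm
        constructor
        · rintro ⟨m, h1, h2⟩
          by_cases h : m.v = 0
          · exact Or.inl ⟨⟨m, h1, h⟩, by split_ifs at h2 ⊢ <;> omega⟩
          · exact Or.inr ⟨⟨m, h1, h⟩, by split_ifs at h2 ⊢ <;> omega⟩
        · rintro (⟨⟨m, h1, h⟩, h2⟩ | ⟨⟨m, h1, h⟩, h2⟩) <;>
            exact ⟨m, h1, by split_ifs at h2 ⊢ <;> omega⟩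
      have B : (∃ m ∈ Y, 0 = min m.v 1) ↔ ∃ m ∈ Y, m.v = 0 :=
        exists_congr fun m => and_congr_right fun _ => by omega
      have C : (∃ m ∈ Y, 1 = min m.v 1) ↔ ∃ m ∈ Y, m.v ≠ 0 :=
        exists_congr fun m => and_congr_right fun _ => by omega
      have D : (if x = 1 then 1 else 2 : Fin 3) ≠ 0 := by split_ifs <;> decide
      simp only [io, S_set, S_el, M_mul, act, mem_union, mem_ofPred_eq, hx, if_false, D, if_true,
        B, C, E.2, ne_eq, E.1, not_true, false_and, and_false, or_false, not_false_iff, true_and,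
        Prod.mk.injEq]
      simp only [or_and_right, exists_or, exists_mem_image, M_mul, A]
      clear A B C D E
      generalize (∃ m ∈ X, p = if q = 0 then min m.v 1 else m.v + 1) = a
      generalize (∃ m ∈ Y, m.v = 0) = b
      generalize (∃ m ∈ Y, m.v ≠ 0) = c
      by_cases h1 : x = 1 <;> by_cases h2 : q = 0 <;> by_cases a <;> by_cases b <;> by_cases c <;>
        simp [*] <;> omega
  · simp only [io, S_el, M_mul, mm, mf]
    split_ifs <;> first | rfl | omega | simp_all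

theorem result : ∃ (M T : Type) (_ : Monoid M) (_ : Monoid T),
    ¬ (LeftCoherent (SP M) ∧ RightCoherent (SP M)) ∧
    (∃ f : SP M → T, Function.Injective f ∧ ∀ a b, f (a * b) = f a * f b) ∧
    (LeftCoherent T ∨ RightCoherent T) :=
  ⟨MM, T, inferInstance, inferInstance, fun h => ncoh h.2, ⟨io, io_inj, io_mul⟩, Or.inl coh⟩

end Pool.Agent.Results.MP_811a2c_al.Embed
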